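import Pool.Agent.Helper304.Ses.Main2

set_option autoImplicit false

/-!
# Seshadri constants along the diagonal of finite étale covers: a negative answer

There are a smooth projective complex surface `X` with large algebraic fundamental group and an
ample line bundle `L` on `X` such that `ε(M_p; D') ≤ 2` for every connected finite étale covering
`p : X' ⟶ X`.

`X` is the double covering `w² = q` of `E × E` (`E` the Fermat cubic), branched along a smooth
ample curve, and `L = O(R)` where `R` is the ramification curve.
-/

open AlgebraicGeometry CategoryTheory
open Pool.Agent.Helper304.Seshadri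

namespace Pool.Agent.Results.MP_77a250_ag.BoundedSeshadri

/-- There are a smooth projective complex surface `X` with large algebraic fundamental group and
an ample line bundle `L` on `X` such that `ε(M_p; D') ≤ 2` for all connected finite étale
coverings `p : X' ⟶ X`. -/
theorem result : ∃ (X : Scheme.{0}) (s : X ⟶ SpecC) (L : LB X),
    IsSmoothProjectiveSurface s ∧ IsAmple L ∧ HasLargeAlgPi1 s ∧
    ∀ (X' : Scheme.{0}) (p : X' ⟶ X), IsCover p → epsDiag s L p ≤ 2 :=
  Pool.Agent.Helper304.Ses.main2

end Pool.Agent.Results.MP_77a250_ag.BoundedSeshadri
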